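import Pool.Agent.MP_4f0ed6_gt.CdV.Core
import Pool.Agent.MP_4f0ed6_gt.CdV.RS

open Pool.Agent.MP_4f0ed6_gt.CdV

namespace Pool.Agent.Results.MP_4f0ed6_gt.GraphMu

theorem result : ∃ γ₀ : ℕ, ∀ γ ≥ γ₀,
    ∃ (V : Type) (_ : Fintype V) (_ : DecidableEq V) (G : SimpleGraph V) (pos : V → ℤ × ℤ)
      (S : Finset (Sym2 V)) (M : Matrix V V ℝ) (hM : M.IsHermitian),
      Function.Injective pos ∧ S.card ≤ γ ∧
      (∀ u v, G.Adj u v → s(u, v) ∉ S →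
        |(pos u).1 - (pos v).1| + |(pos u).2 - (pos v).2| = 1) ∧
      (∀ u v, G.Adj u v → M u v < 0) ∧ (∀ u v, u ≠ v → ¬G.Adj u v → M u v = 0) ∧
      (Finset.univ.filter fun i => hM.eigenvalues i < 0).card = 1 ∧
      (∀ X : Matrix V V ℝ, X.IsSymm → (∀ u v, u = v ∨ G.Adj u v → X u v = 0) → M * X = 0 →
        X = 0) ∧
      (γ : ℝ) * Real.exp (-5 * √(Real.log γ * Real.log (Real.log γ))) ≤
        Module.finrank ℝ (LinearMap.ker (Matrix.toLin' M)) := by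
  obtain ⟨γ₀, h⟩ := asym2
  refine ⟨γ₀, fun γ hγ => ?_⟩
  obtain ⟨e, m, he, hm, hme, h1, h2⟩ := h γ hγ
  obtain ⟨nT, hT, Pm, θ, F, g, f1, f2, f3⟩ := graph_exists e m he hm hme
  obtain ⟨Ap, Am, b⟩ := BAS_pf _ _ Pm θ _ F g f1 f2 f3
  have hc : Fintype.card (DD (e * m)) = 2 ^ (e * m) := by simp [DD]
  obtain ⟨V, i1, i2, G, pos, S, M, hM, a1, a2, a3, a4, a5, a6, a7, a8⟩ :=
    FIN_pf _ Ap Am _ _ _ b (POW_pf (SUM_pf PER_pf GAD_pf) (e * m) _ (by norm_num) _ hc)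
  refine ⟨V, i1, i2, G, pos, S, M, hM, a1, a2.trans (le_trans ?_ h1), a3, a4, a5, a6, a7,
    h2.trans (by exact_mod_cast a8)⟩
  rw [hc, Fintype.card_fin]
  calc nT * (2 * 2 ^ (e * m)) + 2 * (2 * (e * m) * 2 ^ (e * m))
      ≤ 4 ^ e * (4 * 2 ^ (e * m)) + 2 * (2 * (e * m) * 2 ^ (e * m)) := by gcongr; norm_num
    _ = _ := by ring

end Pool.Agent.Results.MP_4f0ed6_gt.GraphMu
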