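import Pool.Agent.Mg.F4f0ed6.G67859a
import Pool.Agent.Mg.F4f0ed6.G62e3c0

open scoped ContDiff
open Pool.Agent.MP_4f0ed6_gt

namespace Pool.Agent.Results.MP_4f0ed6_gt.NearLinear

theorem result : ∃ γ₀ : ℕ, ∀ γ ≥ γ₀,
    ∃ (M : Type) (_ : TopologicalSpace M) (_ : ChartedSpace ℂ M), T2Space M ∧ CompactSpace M ∧
      ConnectedSpace M ∧ IsManifold (modelWithCornersSelf ℂ ℂ) ω M ∧ genus M = γ ∧
      ∃ (g : ConfMetric M) (lam : ℝ) (k : ℕ) (f : Fin k → M → ℝ), 0 < lam ∧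
        (∀ μ : ℝ, 0 < μ → μ < lam → ∀ u, IsEigen g μ u → u = 0) ∧
        (∀ i, IsEigen g lam (f i)) ∧ LinearIndependent ℝ f ∧
        (γ : ℝ) * Real.exp (-5 * √(Real.log γ * Real.log (Real.log γ))) ≤ k := by
  obtain ⟨γ₀, h⟩ := asym2
  refine ⟨γ₀, fun γ hγ => ?_⟩
  obtain ⟨e, m, he, hm, hme, h1, h2⟩ := h γ hγ
  obtain ⟨M, i1, i2, a1, a2, a3, a4, a5, g, f, b1, b2, b3⟩ := good_of_le e m γ he hm hme h1
  exact ⟨M, i1, i2, a1, a2, a3, a4, a5, g, 1, _, f, one_pos, b1, b3, b2, h2⟩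

end Pool.Agent.Results.MP_4f0ed6_gt.NearLinear
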