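import Pool.Agent.Mg.F4f0ed6a.G1dfa1e

open UpperHalfPlane MeasureTheory
open scoped MatrixGroups
open Pool.Agent.MP_4f0ed6_gt.U

namespace Pool.Agent.Results.MP_4f0ed6_gt.Sublinear

theorem result : ∃ (C : ℝ) (γ₀ : ℕ), ∀ γ : ℕ, γ₀ ≤ γ →
    ∀ (Γ : Subgroup SL(2, ℝ)) (F : Set ℍ), Closed Γ F →
    volume F = ENNReal.ofReal (4 * Real.pi * ((γ : ℝ) - 1)) →
    ∀ (ρ : ℍ → ℝ) (lam : ℝ), Sm ρ → Inv Γ ρ → (∀ z, 0 < ρ z) → 0 < lam →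
    (∀ u : ℍ → ℝ, Sm u → Inv Γ u → ∫ z in F, u z * ρ z = 0 →
      lam * ∫ z in F, u z ^ 2 * ρ z ≤ ∫ z in F, en u u z) →
    ∀ (k : ℕ) (f : Fin k → ℍ → ℝ),
      (∀ i, Sm (f i) ∧ Inv Γ (f i) ∧ ∀ z, lap (f i) z = lam * ρ z * f i z) →
      LinearIndependent ℝ f →
      (k : ℝ) ≤ C * γ * Real.log (Real.log (Real.log γ)) / Real.log (Real.log γ) := fFinb

end Pool.Agent.Results.MP_4f0ed6_gt.Sublinear
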